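import Mathlib
import Pool.Agent.V11212.Sh.Core

/-!
# Shadows of Rips complexes of noisy samples of a segment

The straight segment `M = [-1,1] × 0` in `ℝ⁴` satisfies all the hypotheses of the problem, but for
every scale `β` in `(0,1)` there are arbitrarily good finite samples of `M` such that the shadow
of the Rips complex at scale `β` is not homotopy equivalent to `M`.
-/

set_option autoImplicit false

open Set Topology Metric Filter

namespace Pool.Agent.Results.MP_320b68_gt.SegmentShadow

/-- Euclidean space `ℝᴺ`. -/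
abbrev E (N : ℕ) : Type := EuclideanSpace ℝ (Fin N)

/-- The intrinsic distance of `M`: the infimum of the Euclidean lengths (total variations) of the
paths in `M` from `p` to `q`. -/
noncomputable def intrinsicDist {N : ℕ} (M : Set (E N)) (p q : M) : ENNReal :=
  ⨅ γ : Path p q, eVariationOn (fun t : unitInterval => ((γ t : M) : E N)) univ

/-- The hypotheses on `M`: compact, connected, geodesic for the intrinsic metric, a neighbourhood
retract, with (M1), (M2) and (M3). -/
structure Admissible.{u} {N : ℕ} (M : Set (E N)) : Prop where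
  compact : IsCompact M
  connected : IsConnected M
  geodesic : ∀ p q : M, intrinsicDist M p q ≠ ⊤ ∧ ∃ c : ℝ → M, c 0 = p ∧
    c (intrinsicDist M p q).toReal = q ∧
    ∀ s ∈ Icc 0 (intrinsicDist M p q).toReal, ∀ t ∈ Icc 0 (intrinsicDist M p q).toReal,
      intrinsicDist M (c s) (c t) = ENNReal.ofReal |s - t|
  homotopic : ∃ ρ : ℝ, 0 < ρ ∧ ∀ (X : Type u) [TopologicalSpace X] (f g : C(X, M)),
    (∀ x, intrinsicDist M (f x) (g x) < ENNReal.ofReal ρ) → f.Homotopic g
  comparable : ∃ δ ξ : ℝ, 0 < δ ∧ 1 < ξ ∧ ∀ p q : M, dist p q < δ →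
    edist p q ≤ intrinsicDist M p q ∧ intrinsicDist M p q ≤ ENNReal.ofReal ξ * edist p q
  retraction : ∃ (U : Set (E N)) (π : E N → E N) (ε : ℝ → ℝ), M ⊆ interior U ∧
    ContinuousOn π U ∧ MapsTo π U M ∧ (∀ x ∈ M, π x = x) ∧
    (∀ r : ℝ, 0 < r → {x | infDist x M ≤ r} ⊆ U →
      0 < ε r ∧ ∀ x, infDist x M ≤ r → ‖π x - x‖ < ε r) ∧
    Tendsto ε (𝓝[>] 0) (𝓝 0)

/-- The shadow of the Euclidean Rips complex of `S` at scale `β`: the union of the convex hulls
of the nonempty subsets of `S` with Euclidean diameter less than `β`. -/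
def Shadow {N : ℕ} (β : ℝ) (S : Set (E N)) : Set (E N) :=
  ⋃ σ ∈ {σ : Set (E N) | σ ⊆ S ∧ σ.Nonempty ∧ diam σ < β}, convexHull ℝ σ

/-- the segment -/
def seg : Set (E 4) := {x | |x 0| ≤ 1 ∧ x 1 = 0 ∧ x 2 = 0 ∧ x 3 = 0}

lemma convex_seg : Convex ℝ seg := by
  rintro x ⟨hx, hx1, hx2, hx3⟩ y ⟨hy, hy1, hy2, hy3⟩ a b ha hb hab
  refine ⟨?_, by simp [hx1, hy1], by simp [hx2, hy2], by simp [hx3, hy3]⟩
  rw [abs_le] at hx hy ⊢
  simp only [PiLp.add_apply, PiLp.smul_apply, smul_eq_mul]
  constructor <;> nlinarith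

lemma zero_mem_seg : (0 : E 4) ∈ seg := by
  simp [seg]

lemma isClosed_seg : IsClosed seg := by
  have h : ∀ i : Fin 4, Continuous fun x : E 4 => x i := fun i => by fun_prop
  exact (isClosed_le (h 0).abs continuous_const).inter
    ((isClosed_eq (h 1) continuous_const).inter
      ((isClosed_eq (h 2) continuous_const).inter (isClosed_eq (h 3) continuous_const)))

lemma norm_le_of_mem {x : E 4} (hx : x ∈ seg) : ‖x‖ ≤ 1 := by
  obtain ⟨h0, h1, h2, h3⟩ := hx
  rw [EuclideanSpace.norm_eq, Fin.sum_univ_four, h1, h2, h3]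
  simp
  exact h0

lemma isCompact_seg : IsCompact seg := by
  refine isCompact_of_isClosed_isBounded isClosed_seg ?_
  refine (isBounded_closedBall (x := (0 : E 4)) (r := 1)).subset ?_
  intro x hx
  rw [mem_closedBall_zero_iff]
  exact norm_le_of_mem hx

/-- the straight path -/
noncomputable def straight (p q : seg) : Path p q where
  toFun t := ⟨AffineMap.lineMap (p : E 4) (q : E 4) (t : ℝ),
    convex_seg.lineMap_mem p.2 q.2 t.2⟩
  continuous_toFun := by
    refine Continuous.subtype_mk ?_ _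
    exact AffineMap.lineMap_continuous.comp continuous_subtype_val
  source' := by
    ext1
    simp
  target' := by
    ext1
    simp

lemma intrinsicDist_seg (p q : seg) : intrinsicDist seg p q = edist p q := by
  apply le_antisymm
  · refine (iInf_le _ (straight p q)).trans ?_
    have h1 : (fun t : unitInterval => ((straight p q t : seg) : E 4)) =
        (fun t : ℝ => AffineMap.lineMap (p : E 4) (q : E 4) t) ∘
          (fun t : unitInterval => (t : ℝ)) := rfl
    rw [h1]
    have h2 : LipschitzOnWith (nndist (p : E 4) q)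
        (fun t : ℝ => AffineMap.lineMap (p : E 4) (q : E 4) t) univ :=
      (lipschitzWith_lineMap (p : E 4) (q : E 4)).lipschitzOnWith
    refine (h2.comp_eVariationOn_le (mapsTo_univ _ _)).trans ?_
    have h3 : eVariationOn (fun t : unitInterval => (t : ℝ)) univ ≤ ENNReal.ofReal (1 - 0) := by
      have hm : MonotoneOn (fun t : unitInterval => (t : ℝ)) univ := fun a _ b _ h => h
      have h4 := (hm.eVariationOn_eq (mem_univ (0 : unitInterval))
        (mem_univ (1 : unitInterval))).le
      have h5 : univ ∩ Icc (0 : unitInterval) 1 = univ := by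
        rw [univ_inter]
        ext t
        simp [unitInterval.le_one']
      rw [h5] at h4
      simpa using h4
    calc (nndist (p : E 4) q : ENNReal) * eVariationOn (fun t : unitInterval => (t : ℝ)) univ
        ≤ (nndist (p : E 4) q : ENNReal) * ENNReal.ofReal (1 - 0) :=
          mul_le_mul_right h3 _
      _ = edist p q := by
          rw [sub_zero, ENNReal.ofReal_one, mul_one, Subtype.edist_eq, edist_nndist]
  · refine le_iInf fun γ => ?_
    have h := eVariationOn.edist_le (fun t : unitInterval => ((γ t : seg) : E 4))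
      (mem_univ (0 : unitInterval)) (mem_univ (1 : unitInterval))
    simpa [Subtype.edist_eq] using h

lemma toReal_seg (p q : seg) : (intrinsicDist seg p q).toReal = dist p q := by
  rw [intrinsicDist_seg, edist_dist, ENNReal.toReal_ofReal dist_nonneg]

lemma nonempty_seg : seg.Nonempty := ⟨0, zero_mem_seg⟩

instance : ContractibleSpace seg := convex_seg.contractibleSpace nonempty_seg

lemma homotopic_of_contractible {X Y : Type*} [TopologicalSpace X] [TopologicalSpace Y]
    [ContractibleSpace Y] (f g : C(X, Y)) : f.Homotopic g := by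
  obtain ⟨y, hy⟩ := id_nullhomotopic Y
  have h1 := ContinuousMap.Homotopic.comp hy (ContinuousMap.Homotopic.refl f)
  have h2 := ContinuousMap.Homotopic.comp hy (ContinuousMap.Homotopic.refl g)
  rw [ContinuousMap.id_comp] at h1 h2
  exact h1.trans h2.symm

/-- the nearest point retraction onto the segment -/
noncomputable def clampPt (x : E 4) : E 4 := !₂[max (-1) (min 1 (x 0)), 0, 0, 0]

lemma clampPt_mem (x : E 4) : clampPt x ∈ seg := by
  refine ⟨?_, by simp [clampPt], by simp [clampPt], by simp [clampPt]⟩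
  rw [abs_le]
  simp [clampPt]

lemma clampPt_eq {x : E 4} (hx : x ∈ seg) : clampPt x = x := by
  obtain ⟨h0, h1, h2, h3⟩ := hx
  rw [abs_le] at h0
  ext i
  fin_cases i
  · simp [clampPt, h0.1, h0.2]
  · simp [clampPt, h1]
  · simp [clampPt, h2]
  · simp [clampPt, h3]

lemma clampPt_dist (x : E 4) {m : E 4} (hm : m ∈ seg) : dist x (clampPt x) ≤ dist x m := by
  obtain ⟨h0, h1, h2, h3⟩ := hm
  rw [abs_le] at h0
  rw [EuclideanSpace.dist_eq, EuclideanSpace.dist_eq]
  apply Real.sqrt_le_sqrt
  rw [Fin.sum_univ_four, Fin.sum_univ_four]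
  simp only [Real.dist_eq, sq_abs, h1, h2, h3]
  have e0 : clampPt x 0 = max (-1) (min 1 (x 0)) := by simp [clampPt]
  have e1 : clampPt x 1 = 0 := by simp [clampPt]
  have e2 : clampPt x 2 = 0 := by simp [clampPt]
  have e3 : clampPt x 3 = 0 := by simp [clampPt]
  rw [e0, e1, e2, e3]
  have key : (x 0 - max (-1) (min 1 (x 0))) ^ 2 ≤ (x 0 - m 0) ^ 2 := by
    rcases le_total (x 0) 1 with h | h
    · rw [min_eq_right h]
      rcases le_total (-1) (x 0) with h' | h'
      · rw [max_eq_right h', sub_self]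
        nlinarith [sq_nonneg (x 0 - m 0)]
      · rw [max_eq_left h']
        nlinarith
    · rw [min_eq_left h, max_eq_right (by norm_num)]
      nlinarith
  linarith

lemma admissible_seg.{u} : Admissible.{u} seg where
  compact := isCompact_seg
  connected := ⟨nonempty_seg, convex_seg.isPreconnected⟩
  geodesic := by
    intro p q
    refine ⟨by rw [intrinsicDist_seg]; exact edist_ne_top p q, ?_⟩
    rw [toReal_seg]
    have hmem : ∀ t : ℝ, AffineMap.lineMap (p : E 4) (q : E 4)
        ((projIcc (0 : ℝ) 1 zero_le_one t : unitInterval) : ℝ) ∈ seg := fun t =>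
      convex_seg.lineMap_mem p.2 q.2 (projIcc (0 : ℝ) 1 zero_le_one t).2
    refine ⟨fun t => ⟨_, hmem (t / dist p q)⟩, ?_, ?_, ?_⟩
    · ext1
      simp
    · ext1
      rcases eq_or_ne p q with h | h
      · subst h
        simp
      · have hd : dist p q ≠ 0 := dist_ne_zero.2 h
        simp [div_self hd]
    · intro s hs t ht
      rw [intrinsicDist_seg]
      rcases eq_or_ne p q with h | h
      · subst h
        have hs0 : s = 0 := by
          rw [dist_self] at hs
          exact le_antisymm hs.2 hs.1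
        have ht0 : t = 0 := by
          rw [dist_self] at ht
          exact le_antisymm ht.2 ht.1
        rw [hs0, ht0]
        simp
      · have hd : 0 < dist p q := dist_pos.2 h
        have hs1 : s / dist p q ∈ Icc (0 : ℝ) 1 :=
          ⟨div_nonneg hs.1 hd.le, (div_le_one hd).2 hs.2⟩
        have ht1 : t / dist p q ∈ Icc (0 : ℝ) 1 :=
          ⟨div_nonneg ht.1 hd.le, (div_le_one hd).2 ht.2⟩
        rw [Subtype.edist_eq, edist_dist]
        congr 1
        change dist (AffineMap.lineMap (p : E 4) (q : E 4)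
          ((projIcc (0 : ℝ) 1 zero_le_one (s / dist p q) : unitInterval) : ℝ))
          (AffineMap.lineMap (p : E 4) (q : E 4)
          ((projIcc (0 : ℝ) 1 zero_le_one (t / dist p q) : unitInterval) : ℝ)) = |s - t|
        rw [projIcc_of_mem _ hs1, projIcc_of_mem _ ht1]
        change dist (AffineMap.lineMap (p : E 4) (q : E 4) (s / dist p q))
          (AffineMap.lineMap (p : E 4) (q : E 4) (t / dist p q)) = |s - t|
        rw [dist_lineMap_lineMap, Real.dist_eq, ← sub_div, abs_div, abs_of_pos hd,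
          ← Subtype.dist_eq, div_mul_cancel₀ _ hd.ne']
  homotopic := ⟨1, one_pos, fun X _ f g _ => homotopic_of_contractible f g⟩
  comparable := by
    refine ⟨1, 2, one_pos, one_lt_two, fun p q _ => ?_⟩
    rw [intrinsicDist_seg]
    refine ⟨le_refl _, ?_⟩
    calc edist p q = 1 * edist p q := (one_mul _).symm
      _ ≤ ENNReal.ofReal 2 * edist p q := by
          apply mul_le_mul_left
          rw [← ENNReal.ofReal_one]
          exact ENNReal.ofReal_le_ofReal (by norm_num)
  retraction := by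
    refine ⟨univ, clampPt, fun r => 2 * r, by simp, ?_, fun x _ => clampPt_mem x,
      fun x hx => clampPt_eq hx, ?_, ?_⟩
    · refine Continuous.continuousOn ?_
      unfold clampPt
      have h : Continuous fun x : E 4 => (![max (-1) (min 1 (x 0)), 0, 0, 0] : Fin 4 → ℝ) := by
        refine continuous_pi fun i => ?_
        have h0 : Continuous fun x : E 4 => x 0 := by fun_prop
        fin_cases i
        · exact continuous_const.max (continuous_const.min h0)
        · exact continuous_const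
        · exact continuous_const
        · exact continuous_const
      exact (PiLp.continuous_toLp 2 _).comp h
    · intro r hr _
      refine ⟨by linarith, fun x hx => ?_⟩
      have h1 : dist x (clampPt x) ≤ infDist x seg :=
        (le_infDist nonempty_seg).2 fun {y} hy => clampPt_dist x hy
      rw [← dist_eq_norm, dist_comm]
      linarith
    · have h : Tendsto (fun r : ℝ => 2 * r) (𝓝 0) (𝓝 (2 * 0)) :=
        (continuous_const.mul continuous_id).tendsto 0
      rw [mul_zero] at h
      exact h.mono_left nhdsWithin_le_nhds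

open Pool.Agent.V11212.Sh in
/-- the sample points are close to the segment -/
lemma near (P : Par) {η : ℝ} (hτ : P.τ ≤ η / 4) (he : P.e * (200 * P.K) ≤ η)
    (z y₁ y₂ h : ℝ) (hz : |z| ≤ 1 + P.τ)
    (hy : y₁ ^ 2 + y₂ ^ 2 + (h + y₁ + y₂) ^ 2 ≤ 2000 * P.K ^ 2) :
    ∃ m ∈ seg, dist (pt P.e z y₁ y₂ h) m ≤ η / 2 := by
  refine ⟨pt P.e (max (-1) (min 1 z)) 0 0 0, ?_, ?_⟩
  · refine ⟨?_, by simp [pt], by simp [pt], by simp [pt]⟩
    rw [abs_le]
    simp [pt]
  · have hτ0 := P.τpos
    have hη : 0 < η := by linarith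
    rw [← abs_of_nonneg (dist_nonneg (x := pt P.e z y₁ y₂ h)),
      ← abs_of_nonneg (by linarith : 0 ≤ η / 2), ← sq_le_sq, dist_pt]
    have h1 : (z - max (-1) (min 1 z)) ^ 2 ≤ P.τ ^ 2 := by
      rw [abs_le] at hz
      rcases le_total z 1 with h | h
      · rw [min_eq_right h]
        rcases le_total (-1) z with h' | h'
        · rw [max_eq_right h', sub_self]
          nlinarith [sq_nonneg P.τ]
        · rw [max_eq_left h']
          nlinarith
      · rw [min_eq_left h, max_eq_right (by norm_num)]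
        nlinarith
    have h2 : P.e ^ 2 * ((y₁ - 0) ^ 2 + (y₂ - 0) ^ 2 + (h - 0 + (y₁ - 0) + (y₂ - 0)) ^ 2) ≤
        P.e ^ 2 * (2000 * P.K ^ 2) := by
      refine mul_le_mul_of_nonneg_left ?_ (sq_nonneg _)
      simpa using hy
    have h3 : (P.e * (200 * P.K)) ^ 2 ≤ η ^ 2 := by
      have : 0 ≤ P.e * (200 * P.K) := mul_nonneg P.epos.le (by have := P.Kpos; linarith)
      exact pow_le_pow_left₀ this he 2
    have h4 : P.τ ^ 2 ≤ (η / 4) ^ 2 := pow_le_pow_left₀ hτ0.le hτ 2
    nlinarith

open Pool.Agent.V11212.Sh in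
lemma near_special (P : Par) {η : ℝ} (hτ : P.τ ≤ η / 4) (he : P.e * (200 * P.K) ≤ η)
    (hβ : P.β < 1) {x : E 4} (hx : x = P.a₁ ∨ x = P.a₂ ∨ x = P.b₁ ∨ x = P.b₂ ∨ x = P.c₁ ∨
      x = P.c₂ ∨ x = P.d₁ ∨ x = P.d₂) : ∃ m ∈ seg, dist x m ≤ η / 2 := by
  have hl := P.lpos
  have hl1 := P.l1
  have hlK := P.lK
  have hKge := P.Kge
  have hτ0 := P.τpos
  have hKl := P.Kl_nonneg
  have hKτ := P.Kτ_ge
  have hβP : (P.K : ℝ) * P.τ < 1 := hβ
  rcases hx with rfl | rfl | rfl | rfl | rfl | rfl | rfl | rfl
  · exact near P hτ he _ _ _ _ (by rw [abs_le]; constructor <;> nlinarith) (by nlinarith)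
  · exact near P hτ he _ _ _ _ (by rw [abs_le]; constructor <;> nlinarith) (by nlinarith)
  · exact near P hτ he _ _ _ _ (by rw [abs_le]; constructor <;> nlinarith) (by nlinarith)
  · exact near P hτ he _ _ _ _ (by rw [abs_le]; constructor <;> nlinarith) (by nlinarith)
  · exact near P hτ he _ _ _ _ (by rw [abs_le]; constructor <;> nlinarith) (by nlinarith)
  · exact near P hτ he _ _ _ _ (by rw [abs_le]; constructor <;> nlinarith) (by nlinarith)
  · exact near P hτ he _ _ _ _ (by rw [abs_le]; constructor <;> nlinarith) (by nlinarith)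
  · exact near P hτ he _ _ _ _ (by rw [abs_le]; constructor <;> nlinarith) (by nlinarith)

open Pool.Agent.V11212.Sh in
lemma exists_J (P : Par) {η : ℝ} (hτη : P.τ ≤ η / 4) (heη : P.e * (200 * P.K) ≤ η)
    (hβ : P.β < 1) : ∃ J : ℕ, 2 ≤ J ∧ hausdorffDist (P.S J) seg ≤ η / 2 := by
  have hτ0 := P.τpos
  have hKτ := P.Kτ_ge
  have hβP : (P.K : ℝ) * P.τ < 1 := hβ
  have hτ1 : P.τ ≤ 1 / 10 := by linarith
  have hη : 0 < η := by linarith
  have hη2 : 0 ≤ η / 2 := by linarith
  refine ⟨⌈1 / P.τ⌉₊, ?_, ?_⟩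
  · have h1 : 1 / P.τ ≤ (⌈1 / P.τ⌉₊ : ℕ) := Nat.le_ceil _
    have h2 : (10 : ℝ) ≤ 1 / P.τ := by
      rw [le_div_iff₀ hτ0]
      linarith
    have h3 : (2 : ℝ) ≤ (⌈1 / P.τ⌉₊ : ℕ) := by linarith
    exact_mod_cast h3
  set J : ℕ := ⌈1 / P.τ⌉₊ with hJ
  have hJ1 : 1 / P.τ ≤ J := Nat.le_ceil _
  have hJ2 : (J : ℝ) < 1 / P.τ + 1 := Nat.ceil_lt_add_one (by positivity)
  have hJτ : (J : ℝ) * P.τ ≤ 1 + P.τ := by
    have h1 : (J : ℝ) * P.τ ≤ (1 / P.τ + 1) * P.τ := mul_le_mul_of_nonneg_right hJ2.le hτ0.le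
    have h2 : (1 / P.τ + 1) * P.τ = 1 + P.τ := by field_simp
    rw [h2] at h1
    exact h1
  have hJ3 : 1 ≤ J * P.τ := by
    rw [div_le_iff₀ hτ0] at hJ1
    exact hJ1
  refine hausdorffDist_le_of_mem_dist hη2 ?_ ?_
  · intro x hx
    rcases hx with ⟨j, hj, rfl⟩ | hx
    · refine near P hτη heη _ _ _ _ ?_ ?_
      · rw [abs_mul, abs_of_pos hτ0]
        have : |(j : ℝ)| ≤ J := by
          rw [← Int.cast_abs]
          exact_mod_cast hj
        exact (mul_le_mul_of_nonneg_right this hτ0.le).trans hJτ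
      · simp
    · exact near_special P hτη heη hβ hx
  · rintro m ⟨h0, h1, h2, h3⟩
    refine ⟨P.ax ⌊m 0 / P.τ⌋, ?_, ?_⟩
    · refine Or.inl ⟨_, ?_, rfl⟩
      rw [abs_le] at h0 ⊢
      constructor
      · rw [Int.le_floor]
        push_cast
        rw [le_div_iff₀ hτ0]
        linarith
      · have : ((⌊m 0 / P.τ⌋ : ℤ) : ℝ) ≤ J := by
          refine (Int.floor_le _).trans ?_
          rw [div_le_iff₀ hτ0]
          linarith
        exact_mod_cast this
    · have hm : m = pt P.e (m 0) 0 0 0 := by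
        ext i
        fin_cases i
        · simp [pt]
        · simp [pt, h1]
        · simp [pt, h2]
        · simp [pt, h3]
      have hf1 := Int.floor_le (m 0 / P.τ)
      have hf2 := Int.lt_floor_add_one (m 0 / P.τ)
      rw [le_div_iff₀ hτ0] at hf1
      rw [div_lt_iff₀ hτ0] at hf2
      have hd : dist m (P.ax ⌊m 0 / P.τ⌋) ^ 2 ≤ (η / 2) ^ 2 := by
        rw [hm, Par.ax, dist_pt]
        have e0 : (pt P.e (m 0) 0 0 0 : E4) 0 = m 0 := by simp [pt]
        rw [e0]
        nlinarith
      exact (pow_le_pow_iff_left₀ dist_nonneg hη2 two_ne_zero).1 hd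

open Pool.Agent.V11212.Sh in
lemma exists_par {β η : ℝ} (hβ0 : 0 < β) (hη : 0 < η) :
    ∃ P : Par, P.β = β ∧ P.τ ≤ η / 4 ∧ P.e * (200 * P.K) ≤ η := by
  obtain ⟨K, hK⟩ := exists_nat_gt (max 10 (4 * β / η))
  have hK10 : (10 : ℝ) < K := lt_of_le_of_lt (le_max_left _ _) hK
  have hKη : 4 * β / η < K := lt_of_le_of_lt (le_max_right _ _) hK
  have hK10' : 10 ≤ K := by
    have : (10 : ℕ) < K := by exact_mod_cast hK10
    omega
  have hKpos : (0 : ℝ) < K := by linarith
  have hτpos : 0 < β / K := div_pos hβ0 hKpos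
  have hepos : 0 < min (η / (200 * K)) (β / K / (1000 * K)) := by
    apply lt_min
    · positivity
    · positivity
  refine ⟨{ τ := β / K
            K := K
            e := min (η / (200 * K)) (β / K / (1000 * K))
            τpos := hτpos
            epos := hepos
            hK := hK10'
            small := ?_ }, ?_, ?_, ?_⟩
  · have h1 : (min (η / (200 * K)) (β / K / (1000 * K))) ^ 2 ≤ (β / K / (1000 * K)) ^ 2 :=
      pow_le_pow_left₀ hepos.le (min_le_right _ _) 2
    have h2 : 100000 * (K : ℝ) * (β / K / (1000 * K)) ^ 2 = (β / K) ^ 2 / (10 * K) := by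
      field_simp
      norm_num
    have h3 : (β / K) ^ 2 / (10 * K) ≤ (β / K) ^ 2 := by
      apply div_le_self (sq_nonneg _)
      linarith
    calc 100000 * (K : ℝ) * (min (η / (200 * K)) (β / K / (1000 * K))) ^ 2
        ≤ 100000 * (K : ℝ) * (β / K / (1000 * K)) ^ 2 :=
          mul_le_mul_of_nonneg_left h1 (by positivity)
      _ ≤ (β / K) ^ 2 := by rw [h2]; exact h3
  · change (K : ℝ) * (β / K) = β
    field_simp
  · change β / K ≤ η / 4
    rw [div_le_iff₀ hKpos]
    rw [div_lt_iff₀ hη] at hKη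
    linarith
  · change min (η / (200 * K)) (β / K / (1000 * K)) * (200 * K) ≤ η
    have h2 : min (η / (200 * K)) (β / K / (1000 * K)) * (200 * K) ≤
        η / (200 * K) * (200 * K) :=
      mul_le_mul_of_nonneg_right (min_le_left _ _) (by positivity)
    have h3 : η / (200 * K) * (200 * (K : ℝ)) = η := by field_simp
    rw [h3] at h2
    exact h2

/-- **Disproof.**  The segment `[-1,1] × 0` in `ℝ⁴` satisfies all the hypotheses, but for every
scale `β` in `(0,1)` and every `η > 0` some finite sample within Hausdorff distance `η` has a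
shadow which is not homotopy equivalent to the segment. -/
theorem result.{u} : ∃ M : Set (E 4), Admissible.{u} M ∧
    ∀ β : ℝ, 0 < β → β < 1 → ∀ η : ℝ, 0 < η → ∃ S : Finset (E 4), S.Nonempty ∧
      hausdorffDist (S : Set (E 4)) M < η ∧
      ¬ Nonempty (ContinuousMap.HomotopyEquiv (Shadow β (S : Set (E 4))) M) := by
  refine ⟨seg, admissible_seg, ?_⟩
  intro β hβ0 hβ1 η hη
  obtain ⟨P, hPβ, hτ, he⟩ := exists_par hβ0 hη
  obtain ⟨J, hJ, hd⟩ := exists_J P hτ he (by rw [hPβ]; exact hβ1)
  refine ⟨(P.finite_S J).toFinset, ?_, ?_, ?_⟩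
  · rw [Set.Finite.toFinset_nonempty]
    exact ⟨P.a₁, Or.inr (by simp)⟩
  · rw [Set.Finite.coe_toFinset]
    linarith
  · rintro ⟨e⟩
    rw [Set.Finite.coe_toFinset, ← hPβ] at e
    exact P.not_contractible_shadow hJ (ContinuousMap.HomotopyEquiv.contractibleSpace e)

end Pool.Agent.Results.MP_320b68_gt.SegmentShadow
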